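import Pool.Agent.Helper45.CH.Law

set_option autoImplicit false

/-! No rule guesses the digits of the summands of `n` from a noisy copy of `n`. -/

namespace Pool.Agent.Helper45.CH

open Finset
open Pool.Agent.Helper57.CH (states prob zz Joint bad3 StCH3)
open Pool.Agent.Helper57.U2 (rep upTo digit)

/-- the product of two centred indicators -/
lemma cent (b d d' : ℕ) (hb : 2 ≤ b) (hd : d < b) (hd' : d' < b) :
    ∑ a ∈ range b, (((if d = a then 1 else 0) : ℝ) - 1 / b) * ((if d' = a then 1 else 0) - 1 / b) =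
      (if d = d' then 1 else 0) - 1 / b := by
  have hb0 : (b : ℝ) ≠ 0 := by
    have : b ≠ 0 := by omega
    exact_mod_cast this
  have h1 : ∀ a ∈ range b,
      (((if d = a then 1 else 0) : ℝ) - 1 / b) * ((if d' = a then 1 else 0) - 1 / b) =
      (if d = a then (if d' = a then 1 else 0) else 0) - 1 / b * (if d = a then 1 else 0) -
        1 / b * (if d' = a then 1 else 0) + 1 / b * (1 / b) := by
    intro a _
    by_cases h : d = a
    · rw [if_pos h, if_pos h]
      ring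
    · rw [if_neg h, if_neg h]
      ring
  rw [sum_congr rfl h1, sum_add_distrib, sum_sub_distrib, sum_sub_distrib, ← mul_sum, ← mul_sum,
    sum_ite_eq, sum_ite_eq, sum_ite_eq, if_pos (mem_range.2 hd), if_pos (mem_range.2 hd),
    if_pos (mem_range.2 hd'), sum_const, card_range, nsmul_eq_mul]
  have h2 : (if d' = d then (1 : ℝ) else 0) = if d = d' then 1 else 0 := by
    by_cases h : d = d'
    · rw [if_pos h, if_pos h.symm]
    · rw [if_neg h, if_neg (Ne.symm h)]
  rw [h2]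
  field_simp
  ring

/-- words which agree with one word agree with each other -/
lemma key {ι : Type*} (W : Finset ι) (u : ι → ℝ) (hu : ∀ T ∈ W, 0 ≤ u T) (d : ι → ℕ → ℕ)
    (b K : ℕ) (hb : 2 ≤ b) (hK : 0 < K) (hd : ∀ T ∈ W, ∀ i, d T i < b) (J : ℕ → ℕ) (ε : ℝ)
    (hε : 0 < ε)
    (h : ∀ T ∈ W, u T ≠ 0 → (1 / b + ε) * K ≤ (#{i ∈ range K | J i = d T i} : ℝ)) :
    ε ^ 2 / 2 * (∑ T ∈ W, u T) ^ 2 ≤ ∑ T ∈ W, ∑ T' ∈ W, u T * u T' *
      if (1 / b + ε ^ 2 / 2) * K ≤ (#{i ∈ range K | d T i = d T' i} : ℝ) then 1 else 0 := by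
  have hb0 : (0 : ℝ) < b := by
    have : 0 < b := by omega
    exact_mod_cast this
  have hK0 : (0 : ℝ) < K := by exact_mod_cast hK
  obtain ⟨V, hV⟩ : ∃ V : ℕ → ℕ → ℝ, V = fun i a =>
      ∑ T ∈ W, u T * ((if d T i = a then 1 else 0) - 1 / b) := ⟨_, rfl⟩
  obtain ⟨q, hq⟩ : ∃ q, q = ∑ T ∈ W, u T := ⟨_, rfl⟩
  have hq0 : 0 ≤ q := by
    rw [hq]
    exact sum_nonneg hu
  rw [← hq]
  -- first moment
  have h1 : ε * K * q ≤ ∑ i ∈ range K, V i (J i % b) := by
    have h2 : ∑ i ∈ range K, V i (J i % b) =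
        ∑ T ∈ W, u T * ((#{i ∈ range K | d T i = J i % b} : ℝ) - K / b) := by
      rw [hV, sum_comm]
      refine sum_congr rfl fun T _ => ?_
      rw [← mul_sum, sum_sub_distrib, sum_boole, sum_const, card_range, nsmul_eq_mul]
      congr 2
      ring
    rw [h2, hq, mul_sum]
    refine sum_le_sum fun T hT => ?_
    by_cases h0 : u T = 0
    · rw [h0]
      simp
    have h3 := h T hT h0
    have h4 : (#{i ∈ range K | J i = d T i} : ℝ) ≤ #{i ∈ range K | d T i = J i % b} := by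
      refine Nat.cast_le.2 (card_le_card fun i hi => ?_)
      rw [mem_filter] at hi ⊢
      refine ⟨hi.1, ?_⟩
      rw [hi.2, Nat.mod_eq_of_lt (hd T hT i)]
    have h5 : ε * K ≤ (#{i ∈ range K | d T i = J i % b} : ℝ) - K / b := by
      have : (1 / b + ε) * K = K / b + ε * K := by ring
      linarith
    calc ε * K * u T = u T * (ε * K) := by ring
      _ ≤ _ := mul_le_mul_of_nonneg_left h5 (hu T hT)
  -- second moment
  have h6 : (∑ i ∈ range K, V i (J i % b)) ^ 2 ≤ K * ∑ i ∈ range K, ∑ a ∈ range b, V i a ^ 2 := by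
    have h7 := sq_sum_le_card_mul_sum_sq (s := range K) (f := fun i => V i (J i % b))
    rw [card_range] at h7
    refine h7.trans (mul_le_mul_of_nonneg_left (sum_le_sum fun i _ => ?_) hK0.le)
    exact single_le_sum (f := fun a => V i a ^ 2) (fun a _ => sq_nonneg _)
      (mem_range.2 (Nat.mod_lt _ (by omega)))
  have h8 : ∑ i ∈ range K, ∑ a ∈ range b, V i a ^ 2 =
      ∑ T ∈ W, ∑ T' ∈ W, u T * u T' * ((#{i ∈ range K | d T i = d T' i} : ℝ) - K / b) := by
    have h9 : ∀ i ∈ range K, ∑ a ∈ range b, V i a ^ 2 = ∑ T ∈ W, ∑ T' ∈ W, u T * u T' *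
        ((if d T i = d T' i then 1 else 0) - 1 / b) := by
      intro i _
      rw [hV]
      have e1 : ∀ a ∈ range b, (∑ T ∈ W, u T * (((if d T i = a then 1 else 0) : ℝ) - 1 / b)) ^ 2 =
          ∑ T ∈ W, ∑ T' ∈ W, u T * u T' * ((((if d T i = a then 1 else 0) : ℝ) - 1 / b) *
            ((if d T' i = a then 1 else 0) - 1 / b)) := by
        intro a _
        rw [sq, sum_mul_sum]
        exact sum_congr rfl fun T _ => sum_congr rfl fun T' _ => by ring
      rw [sum_congr rfl e1, sum_comm]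
      refine sum_congr rfl fun T hT => ?_
      rw [sum_comm]
      refine sum_congr rfl fun T' hT' => ?_
      rw [← mul_sum, cent b _ _ hb (hd T hT i) (hd T' hT' i)]
    rw [sum_congr rfl h9, sum_comm]
    refine sum_congr rfl fun T _ => ?_
    rw [sum_comm]
    refine sum_congr rfl fun T' _ => ?_
    rw [← mul_sum, sum_sub_distrib, sum_boole, sum_const, card_range, nsmul_eq_mul]
    congr 2
    ring
  have h10 : ∑ T ∈ W, ∑ T' ∈ W, u T * u T' * ((#{i ∈ range K | d T i = d T' i} : ℝ) - K / b) ≤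
      K * (ε ^ 2 / 2 * q ^ 2 + ∑ T ∈ W, ∑ T' ∈ W, u T * u T' *
        if (1 / b + ε ^ 2 / 2) * K ≤ (#{i ∈ range K | d T i = d T' i} : ℝ) then 1 else 0) := by
    have h11 : ε ^ 2 / 2 * q ^ 2 = ∑ T ∈ W, ∑ T' ∈ W, u T * u T' * (ε ^ 2 / 2) := by
      rw [hq, sq (∑ T ∈ W, u T), sum_mul_sum, mul_sum]
      refine sum_congr rfl fun T _ => ?_
      rw [mul_sum]
      exact sum_congr rfl fun T' _ => by ring
    rw [h11, ← sum_add_distrib, mul_sum]
    refine sum_le_sum fun T hT => ?_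
    rw [← sum_add_distrib, mul_sum]
    refine sum_le_sum fun T' hT' => ?_
    have huu : 0 ≤ u T * u T' := mul_nonneg (hu T hT) (hu T' hT')
    have h12 : (#{i ∈ range K | d T i = d T' i} : ℝ) - K / b ≤ K * (ε ^ 2 / 2 +
        if (1 / b + ε ^ 2 / 2) * K ≤ (#{i ∈ range K | d T i = d T' i} : ℝ) then 1 else 0) := by
      have h13 : (#{i ∈ range K | d T i = d T' i} : ℝ) ≤ K := by
        have := card_filter_le (range K) fun i => d T i = d T' i
        rw [card_range] at this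
        exact_mod_cast this
      have h14 : (0 : ℝ) ≤ K / b := by positivity
      split_ifs with hc
      · have : 0 ≤ (K : ℝ) * (ε ^ 2 / 2) := by positivity
        linarith
      · rw [not_le] at hc
        have : (1 / b + ε ^ 2 / 2) * K = K / b + K * (ε ^ 2 / 2 + 0) := by ring
        linarith
    calc _ ≤ u T * u T' * (K * (ε ^ 2 / 2 +
          if (1 / b + ε ^ 2 / 2) * K ≤ (#{i ∈ range K | d T i = d T' i} : ℝ) then 1 else 0)) :=
          mul_le_mul_of_nonneg_left h12 huu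
      _ = _ := by ring
  have h15 : (ε * K * q) ^ 2 ≤ K * (K * (ε ^ 2 / 2 * q ^ 2 + ∑ T ∈ W, ∑ T' ∈ W, u T * u T' *
        if (1 / b + ε ^ 2 / 2) * K ≤ (#{i ∈ range K | d T i = d T' i} : ℝ) then 1 else 0)) := by
    have h16 : 0 ≤ ε * K * q := by positivity
    calc _ ≤ (∑ i ∈ range K, V i (J i % b)) ^ 2 := pow_le_pow_left₀ h16 h1 2
      _ ≤ _ := h6
      _ ≤ _ := by
        rw [h8]
        exact mul_le_mul_of_nonneg_left h10 hK0.le
  have h17 : (K : ℝ) ^ 2 * (ε ^ 2 * q ^ 2) ≤ (K : ℝ) ^ 2 * (ε ^ 2 / 2 * q ^ 2 +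
      ∑ T ∈ W, ∑ T' ∈ W, u T * u T' *
        if (1 / b + ε ^ 2 / 2) * K ≤ (#{i ∈ range K | d T i = d T' i} : ℝ) then 1 else 0) := by
    calc _ = (ε * K * q) ^ 2 := by ring
      _ ≤ _ := h15
      _ = _ := by ring
  have h18 := le_of_mul_le_mul_left h17 (by positivity)
  linarith

open Classical in
/-- The `n < b ^ K` with a representation `n = a + a'`, `a` and `a'` in `A`, such that at least the
proportion `1 / b + ε` of the digits of `a` at the positions `i < K` are the `J (n + z) i`. -/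
noncomputable def guessedAt (b K : ℕ) (ε : ℝ) (A : Set ℕ) (J : ℕ → ℕ → ℕ) (z : ℕ) : Finset ℕ :=
  {n ∈ range (b ^ K) | ∃ a ∈ A, ∃ a' ∈ A, a + a' = n ∧
    (1 / b + ε) * K ≤ (#{i ∈ range K | J (n + z) i = digit b i a} : ℝ)}

lemma card_guessedAt_le (b K : ℕ) (ε : ℝ) (A : Set ℕ) (J : ℕ → ℕ → ℕ) (z : ℕ) :
    (#(guessedAt b K ε A J z) : ℝ) ≤ ∑ n ∈ range (2 * b ^ K), (rep A n : ℝ) ^ 2 := by
  classical
  have h1 : (#(guessedAt b K ε A J z) : ℝ) = ∑ n ∈ guessedAt b K ε A J z, (1 : ℝ) := by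
    rw [sum_const, nsmul_eq_mul, mul_one]
  rw [h1]
  refine le_trans (sum_le_sum fun n hn => ?_)
    (sum_le_sum_of_subset_of_nonneg (s := guessedAt b K ε A J z) (fun n hn => ?_)
      fun _ _ _ => sq_nonneg _)
  · obtain ⟨_, a, ha, a', ha', haa, _⟩ := mem_filter.1 hn
    have h2 : 0 < rep A n := by
      refine card_pos.2 ⟨(a, a'), ?_⟩
      rw [mem_filter, HasAntidiagonal.mem_antidiagonal]
      exact ⟨haa, ha, ha'⟩
    have h3 : (1 : ℝ) ≤ (rep A n : ℝ) := by exact_mod_cast h2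
    nlinarith
  · have := mem_range.1 (mem_filter.1 hn).1
    exact mem_range.2 (by omega)

lemma geo_lt {b : ℕ} (hb : 2 ≤ b) (K : ℕ) : ∑ i ∈ range K, b ^ i < b ^ K := by
  induction K with
  | zero => simp
  | succ K ih =>
    rw [sum_range_succ, pow_succ]
    have h1 : b ^ K * 2 ≤ b ^ K * b := Nat.mul_le_mul_left _ hb
    omega

lemma zt_lt {b : ℕ} (hb : 2 ≤ b) (K : ℕ) (T : Finset ℕ) (hT : T ⊆ range K) :
    ∑ i ∈ T, b ^ i < b ^ K :=
  lt_of_le_of_lt (sum_le_sum_of_subset hT) (geo_lt hb K)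

lemma ite3 (p q r : Prop) [Decidable p] [Decidable q] [Decidable r] :
    (if p then (1 : ℝ) else 0) * (if q then 1 else 0) * (if r then 1 else 0) =
      if p ∧ q ∧ r then 1 else 0 := by
  by_cases hp : p <;> by_cases hq : q <;> by_cases hr : r <;> simp [hp, hq, hr]

/-- agreement of the digits contradicts joint normality -/
lemma not_joint {b K : ℕ} (hb : 2 ≤ b) (hK : 0 < K) {ε : ℝ} (hε : 0 < ε) {a a' d : ℕ}
    (h : (1 / b + ε ^ 2 / 2) * K ≤ (#{i ∈ range K | digit b i a = digit b i d} : ℝ)) :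
    ¬ Joint b 1 K (ε ^ 2 / (4 * b ^ 2)) a a' d := by
  intro hj
  have hb0 : (0 : ℝ) < b := by
    have : 0 < b := by omega
    exact_mod_cast this
  have hK0 : (0 : ℝ) < K := by exact_mod_cast hK
  have h1 : (#{i ∈ range K | digit b i a = digit b i d} : ℝ) ≤
      ∑ u ∈ range b, ∑ v ∈ range b, (#{i ∈ range K | a / b ^ i % b ^ 1 = u ∧
        a' / b ^ i % b ^ 1 = v ∧ d / b ^ i % b ^ 1 = u} : ℝ) := by
    rw [← sum_product']
    rw [← Nat.cast_sum]
    refine Nat.cast_le.2 ?_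
    refine le_trans (card_le_card (t := (range b ×ˢ range b).biUnion fun p =>
      {i ∈ range K | a / b ^ i % b ^ 1 = p.1 ∧ a' / b ^ i % b ^ 1 = p.2 ∧
        d / b ^ i % b ^ 1 = p.1}) fun i hi => ?_) card_biUnion_le
    obtain ⟨hi1, hi2⟩ := mem_filter.1 hi
    rw [mem_biUnion]
    refine ⟨(a / b ^ i % b, a' / b ^ i % b), ?_, ?_⟩
    · rw [mem_product]
      exact ⟨mem_range.2 (Nat.mod_lt _ (by omega)), mem_range.2 (Nat.mod_lt _ (by omega))⟩
    · rw [mem_filter, pow_one]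
      exact ⟨hi1, rfl, rfl, hi2.symm⟩
  have h2 : ∑ u ∈ range b, ∑ v ∈ range b, (#{i ∈ range K | a / b ^ i % b ^ 1 = u ∧
      a' / b ^ i % b ^ 1 = v ∧ d / b ^ i % b ^ 1 = u} : ℝ) ≤
      ∑ u ∈ range b, ∑ v ∈ range b, (K / (b : ℝ) ^ 3 + ε ^ 2 / (4 * b ^ 2) * K) := by
    refine sum_le_sum fun u hu => sum_le_sum fun v hv => ?_
    have h3 := hj u v u (by rw [pow_one]; exact mem_range.1 hu)
      (by rw [pow_one]; exact mem_range.1 hv) (by rw [pow_one]; exact mem_range.1 hu)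
    have h4 := (abs_le.1 h3).2
    rw [pow_one (b : ℝ)] at h4
    linarith
  have h5 : ∑ u ∈ range b, ∑ v ∈ range b, (K / (b : ℝ) ^ 3 + ε ^ 2 / (4 * b ^ 2) * K) =
      K / b + ε ^ 2 / 4 * K := by
    rw [sum_const, sum_const, card_range, nsmul_eq_mul, nsmul_eq_mul]
    field_simp
  have h6 : (1 / b + ε ^ 2 / 2) * (K : ℝ) = K / b + ε ^ 2 / 2 * K := by ring
  have h7 : 0 < ε ^ 2 * K := by positivity
  nlinarith [h.trans (h1.trans (h2.trans h5.le))]

lemma mem_upTo {D : Set ℕ} {x n : ℕ} : n ∈ upTo D x ↔ n < x ∧ n ∈ D := by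
  unfold upTo
  simp only [mem_filter, mem_range]

end Pool.Agent.Helper45.CH
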