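import Pool.Agent.Helper57.CH.Frames3

set_option autoImplicit false

/-! The difference of two random sets of increments. -/

namespace Pool.Agent.Helper45.CH

open Finset
open Pool.Agent.Helper57.CH (states prob zz)

/-- expectation of `F(z)`, `z = sum_(i in T) b ^ i`, each `i < K` in `T` with probability `p` -/
noncomputable def N1 (b K : ℕ) (p : ℝ) (F : ℤ → ℝ) : ℝ :=
  ∑ T ∈ (range K).powerset, p ^ #T * (1 - p) ^ (K - #T) * F (∑ i ∈ T, (b : ℤ) ^ i)

lemma sum_powerset_succ (K : ℕ) (p : ℝ) (f : Finset ℕ → ℝ) :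
    ∑ T ∈ (range (K + 1)).powerset, p ^ #T * (1 - p) ^ (K + 1 - #T) * f T =
      ∑ T ∈ (range K).powerset, p ^ #T * (1 - p) ^ (K - #T) *
        ((1 - p) * f T + p * f (insert K T)) := by
  rw [range_add_one, sum_powerset_insert notMem_range_self, ← sum_add_distrib]
  refine sum_congr rfl fun T hT => ?_
  have hT' := mem_powerset.1 hT
  have hc : #T ≤ K := by
    have := card_le_card hT'
    rwa [card_range] at this
  have hK : K ∉ T := fun h => notMem_range_self (hT' h)
  rw [card_insert_of_notMem hK, show K + 1 - #T = (K - #T) + 1 by omega,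
    show K + 1 - (#T + 1) = K - #T by omega, pow_succ, pow_succ]
  ring

lemma N1_succ (b K : ℕ) (p : ℝ) (F : ℤ → ℝ) : N1 b (K + 1) p F =
    (1 - p) * N1 b K p F + p * N1 b K p fun u => F (u + (b : ℤ) ^ K) := by
  unfold N1
  rw [sum_powerset_succ K p fun T => F (∑ i ∈ T, (b : ℤ) ^ i), mul_sum, mul_sum,
    ← sum_add_distrib]
  refine sum_congr rfl fun T hT => ?_
  have hK : K ∉ T := fun h => notMem_range_self ((mem_powerset.1 hT) h)
  rw [sum_insert hK, add_comm ((b : ℤ) ^ K)]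
  ring

lemma N1_add (b K : ℕ) (p c d : ℝ) (F G : ℤ → ℝ) :
    N1 b K p (fun u => c * F u + d * G u) = c * N1 b K p F + d * N1 b K p G := by
  unfold N1
  rw [mul_sum, mul_sum, ← sum_add_distrib]
  exact sum_congr rfl fun T _ => by ring

/-- two independent copies -/
noncomputable def N2 (b K : ℕ) (p : ℝ) (F : ℤ → ℝ) : ℝ :=
  N1 b K p fun u => N1 b K p fun u' => F (u - u')

lemma N2_succ (b K : ℕ) (p : ℝ) (F : ℤ → ℝ) : N2 b (K + 1) p F =
    (1 - 2 * p * (1 - p)) * N2 b K p F + p * (1 - p) * (N2 b K p fun u => F (u + (b : ℤ) ^ K)) +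
      p * (1 - p) * (N2 b K p fun u => F (u - (b : ℤ) ^ K)) := by
  have h1 : N2 b (K + 1) p F = (1 - p) * N1 b K p (fun u => N1 b (K + 1) p fun u' => F (u - u')) +
      p * N1 b K p (fun u => N1 b (K + 1) p fun u' => F (u + (b : ℤ) ^ K - u')) :=
    N1_succ b K p fun u => N1 b (K + 1) p fun u' => F (u - u')
  have h2 : (fun u => N1 b (K + 1) p fun u' => F (u - u')) = fun u =>
      (1 - p) * (N1 b K p fun u' => F (u - u')) +
        p * N1 b K p fun u' => F (u - u' - (b : ℤ) ^ K) := by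
    funext u
    rw [N1_succ]
    congr 2
    refine congrArg (N1 b K p) (funext fun u' => ?_)
    rw [sub_add_eq_sub_sub]
  have h3 : (fun u => N1 b (K + 1) p fun u' => F (u + (b : ℤ) ^ K - u')) = fun u =>
      (1 - p) * (N1 b K p fun u' => F (u - u' + (b : ℤ) ^ K)) +
        p * N1 b K p fun u' => F (u - u') := by
    funext u
    rw [N1_succ]
    congr 2
    · refine congrArg (N1 b K p) (funext fun u' => ?_)
      congr 1
      ring
    · refine congrArg (N1 b K p) (funext fun u' => ?_)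
      congr 1
      ring
  have h4 := N1_add b K p (1 - p) p (fun u => N1 b K p fun u' => F (u - u'))
    fun u => N1 b K p fun u' => F (u - u' - (b : ℤ) ^ K)
  have h5 := N1_add b K p (1 - p) p (fun u => N1 b K p fun u' => F (u - u' + (b : ℤ) ^ K))
    fun u => N1 b K p fun u' => F (u - u')
  have h6 : N2 b (K + 1) p F = (1 - p) * ((1 - p) * N2 b K p F +
      p * N2 b K p fun u => F (u - (b : ℤ) ^ K)) +
      p * ((1 - p) * (N2 b K p fun u => F (u + (b : ℤ) ^ K)) + p * N2 b K p F) := by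
    rw [h1, h2, h3, h4, h5]
    rfl
  rw [h6]
  ring

lemma sum_states (K : ℕ) (g : (Fin (K + 1) → ℤ) → ℝ) :
    ∑ ξ ∈ states (K + 1), g ξ =
      ∑ η ∈ states K, ∑ v ∈ ({-1, 0, 1} : Finset ℤ), g (Fin.snoc η v) := by
  rw [← sum_product']
  symm
  refine Finset.sum_nbij' (fun x => (Fin.snoc x.1 x.2 : Fin (K + 1) → ℤ))
    (fun ξ => (fun i : Fin K => ξ i.castSucc, ξ (Fin.last K))) ?_ ?_ ?_ ?_ ?_
  · intro x hx
    rw [mem_product] at hx
    unfold states at hx ⊢
    rw [Fintype.mem_piFinset] at hx ⊢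
    intro i
    refine Fin.lastCases ?_ (fun j => ?_) i
    · rw [Fin.snoc_last]
      exact hx.2
    · rw [Fin.snoc_castSucc]
      exact hx.1 j
  · intro ξ hξ
    unfold states at hξ ⊢
    rw [Fintype.mem_piFinset] at hξ
    rw [mem_product, Fintype.mem_piFinset]
    exact ⟨fun i => hξ _, hξ _⟩
  · intro x _
    refine Prod.ext ?_ ?_
    · funext i
      show (Fin.snoc x.1 x.2 : Fin (K + 1) → ℤ) i.castSucc = x.1 i
      rw [Fin.snoc_castSucc]
    · show (Fin.snoc x.1 x.2 : Fin (K + 1) → ℤ) (Fin.last K) = x.2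
      rw [Fin.snoc_last]
  · intro ξ _
    funext i
    refine Fin.lastCases ?_ (fun j => ?_) i
    · show (Fin.snoc (fun i : Fin K => ξ i.castSucc) (ξ (Fin.last K)) : Fin (K + 1) → ℤ)
        (Fin.last K) = _
      rw [Fin.snoc_last]
    · show (Fin.snoc (fun i : Fin K => ξ i.castSucc) (ξ (Fin.last K)) : Fin (K + 1) → ℤ)
        j.castSucc = _
      rw [Fin.snoc_castSucc]
  · intro x _
    rfl

lemma prob_snoc {K : ℕ} (s : ℝ) (η : Fin K → ℤ) (v : ℤ) :
    prob s (Fin.snoc η v : Fin (K + 1) → ℤ) = prob s η * if v = 0 then 1 - s else s / 2 := by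
  unfold prob
  rw [Fin.prod_univ_castSucc]
  simp only [Fin.snoc_castSucc, Fin.snoc_last]

lemma zz_snoc {K : ℕ} (b : ℕ) (η : Fin K → ℤ) (v : ℤ) :
    zz b (Fin.snoc η v : Fin (K + 1) → ℤ) = zz b η + v * (b : ℤ) ^ K := by
  unfold zz
  rw [Fin.sum_univ_castSucc]
  simp only [Fin.snoc_castSucc, Fin.snoc_last, Fin.val_castSucc, Fin.val_last]

/-- the law of the difference -/
theorem law (b : ℕ) (p : ℝ) : ∀ (K : ℕ) (F : ℤ → ℝ),
    N2 b K p F = ∑ ξ ∈ states K, prob (2 * p * (1 - p)) ξ * F (zz b ξ)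
  | 0, F => by
    have h1 : states 0 = {fun i => Fin.elim0 i} := by
      ext ξ
      unfold states
      rw [Fintype.mem_piFinset, mem_singleton]
      exact ⟨fun _ => Subsingleton.elim _ _, fun _ i => i.elim0⟩
    rw [h1, sum_singleton]
    unfold N2 N1 prob zz
    simp
  | K + 1, F => by
    rw [N2_succ, law b p K F, law b p K fun u => F (u + (b : ℤ) ^ K),
      law b p K fun u => F (u - (b : ℤ) ^ K), sum_states, mul_sum, mul_sum, mul_sum,
      ← sum_add_distrib, ← sum_add_distrib]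
    refine sum_congr rfl fun η _ => ?_
    have h1 : (-1 : ℤ) ∉ ({0, 1} : Finset ℤ) := by decide
    have h2 : (0 : ℤ) ∉ ({1} : Finset ℤ) := by decide
    rw [sum_insert h1, sum_insert h2, sum_singleton, prob_snoc, prob_snoc, prob_snoc, zz_snoc,
      zz_snoc, zz_snoc, if_neg (by norm_num), if_pos rfl, if_neg (by norm_num)]
    have e1 : zz b η + -1 * (b : ℤ) ^ K = zz b η - (b : ℤ) ^ K := by ring
    have e2 : zz b η + 0 * (b : ℤ) ^ K = zz b η := by ring
    have e3 : zz b η + 1 * (b : ℤ) ^ K = zz b η + (b : ℤ) ^ K := by ring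
    rw [e1, e2, e3]
    ring

end Pool.Agent.Helper45.CH
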