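import Pool.Agent.Helper45.CH.Noisy0
import Pool.Agent.Helper57.CH.Asm3
import Pool.Agent.Helper63.CH.Mu
import Pool.Agent.Helper66.CH.D3
import Pool.Agent.Helper43.CH.M3
import Pool.Agent.Helper8.CH.StG4

set_option autoImplicit false

/-! No rule guesses the digits of the summands of `n` from a noisy copy of `n`. -/

namespace Pool.Agent.Helper45.CH

open Finset
open Pool.Agent.Helper57.CH (states prob zz Joint bad3 StCH3)
open Pool.Agent.Helper57.U2 (rep upTo digit)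

lemma card_guessedAt_le_pow (b K : ℕ) (ε : ℝ) (A : Set ℕ) (J : ℕ → ℕ → ℕ) (z : ℕ) :
    (#(guessedAt b K ε A J z) : ℝ) ≤ (b : ℝ) ^ K := by
  classical
  have h4 : #(guessedAt b K ε A J z) ≤ #(range (b ^ K)) := card_filter_le _ _
  rw [card_range] at h4
  exact_mod_cast h4

/-- the case without digits -/
lemma noisy_zero {b : ℕ} {ε : ℝ} {C : ℝ} (hC : 1 ≤ C) (A : Set ℕ) (p c : ℝ) (J : ℕ → ℕ → ℕ) :
    (∑ T ∈ (range 0).powerset, p ^ #T * (1 - p) ^ (0 - #T) *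
        (#(guessedAt b 0 ε A J (∑ i ∈ T, b ^ i)) : ℝ)) ^ 2 ≤
      C * (b : ℝ) ^ 0 * Real.exp (-(c * p * (0 : ℕ))) *
        ∑ n ∈ range (2 * b ^ 0), (rep A n : ℝ) ^ 2 := by
  have h0 : (range 0).powerset = {∅} := by
    rw [range_zero, powerset_empty]
  have h1 : ∑ T ∈ (range 0).powerset, p ^ #T * (1 - p) ^ (0 - #T) *
        (#(guessedAt b 0 ε A J (∑ i ∈ T, b ^ i)) : ℝ) = #(guessedAt b 0 ε A J 0) := by
    rw [h0, sum_singleton, card_empty, pow_zero, Nat.sub_zero, pow_zero, sum_empty, one_mul,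
      one_mul]
  have h2 := card_guessedAt_le b 0 ε A J 0
  have h3 : (#(guessedAt b 0 ε A J 0) : ℝ) ≤ 1 := by
    have h4 := card_guessedAt_le_pow b 0 ε A J 0
    rwa [pow_zero] at h4
  have h4 : (0 : ℝ) ≤ #(guessedAt b 0 ε A J 0) := Nat.cast_nonneg _
  have h5 : C * (b : ℝ) ^ 0 * Real.exp (-(c * p * (0 : ℕ))) = C := by
    rw [Nat.cast_zero, mul_zero, neg_zero, Real.exp_zero, pow_zero, mul_one, mul_one]
  rw [h1, h5]
  nlinarith

/-- **Noisy digits.** -/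
theorem noisy (hCH : StCH3) (b : ℕ) (hb : 2 ≤ b) (ε : ℝ) (hε : 0 < ε) :
    ∃ c C : ℝ, 0 < c ∧ 0 < C ∧ ∀ (A : Set ℕ) (K : ℕ) (p : ℝ), 0 < p → p ≤ 1 / 2 →
      ∀ J : ℕ → ℕ → ℕ,
      (∑ T ∈ (range K).powerset, p ^ #T * (1 - p) ^ (K - #T) *
        (#(guessedAt b K ε A J (∑ i ∈ T, b ^ i)) : ℝ)) ^ 2 ≤
      C * (b : ℝ) ^ K * Real.exp (-(c * p * K)) * ∑ n ∈ range (2 * b ^ K), (rep A n : ℝ) ^ 2 := by
  classical
  have hb0 : (0 : ℝ) < b := by
    have : 0 < b := by omega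
    exact_mod_cast this
  obtain ⟨c, C, hc, hC, hmain⟩ := sum_sq_le hCH hb hε
  refine ⟨c, 4 * C / ε ^ 2 + 1, hc, by positivity, fun A K p hp hp2 J => ?_⟩
  rcases Nat.eq_zero_or_pos K with hK | hK
  · subst hK
    exact noisy_zero (by
      have : 0 ≤ 4 * C / ε ^ 2 := by positivity
      linarith) A p c J
  have h0 := hmain A K p hK hp hp2 J
  have hE0 : 0 ≤ ∑ n ∈ range (2 * b ^ K), (rep A n : ℝ) ^ 2 :=
    sum_nonneg fun _ _ => sq_nonneg _
  generalize ∑ n ∈ range (2 * b ^ K), (rep A n : ℝ) ^ 2 = E at h0 hE0 ⊢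
  have h1 : ∑ T ∈ (range K).powerset, p ^ #T * (1 - p) ^ (K - #T) *
      (#(guessedAt b K ε A J (∑ i ∈ T, b ^ i)) : ℝ) ≤
      ∑ y ∈ range (2 * b ^ K), ∑ T ∈ (range K).powerset, p ^ #T * (1 - p) ^ (K - #T) *
        if Gd b K ε A J y T then 1 else 0 := by
    rw [sum_comm]
    refine sum_le_sum fun T hT => ?_
    rw [← mul_sum]
    exact mul_le_mul_of_nonneg_left (guessed_le hb A J T (mem_powerset.1 hT))
      (weights_nonneg hp hp2 T)
  have h9 := sq_sum_le_card_mul_sum_sq (s := range (2 * b ^ K))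
    (f := fun y => ∑ T ∈ (range K).powerset, p ^ #T * (1 - p) ^ (K - #T) *
      if Gd b K ε A J y T then (1 : ℝ) else 0)
  rw [card_range] at h9
  push_cast at h9
  have h11 : 0 ≤ ∑ T ∈ (range K).powerset, p ^ #T * (1 - p) ^ (K - #T) *
      (#(guessedAt b K ε A J (∑ i ∈ T, b ^ i)) : ℝ) :=
    sum_nonneg fun T _ => mul_nonneg (weights_nonneg hp hp2 T) (Nat.cast_nonneg _)
  rw [← mul_sum] at h0
  have hx0 : (0 : ℝ) < (b : ℝ) ^ K := by positivity
  generalize ∑ T ∈ (range K).powerset, p ^ #T * (1 - p) ^ (K - #T) *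
      (#(guessedAt b K ε A J (∑ i ∈ T, b ^ i)) : ℝ) = P at h1 h11 ⊢
  generalize ∑ y ∈ range (2 * b ^ K), ∑ T ∈ (range K).powerset, p ^ #T * (1 - p) ^ (K - #T) *
        (if Gd b K ε A J y T then (1 : ℝ) else 0) = Q at h1 h9
  generalize ∑ y ∈ range (2 * b ^ K), (∑ T ∈ (range K).powerset, p ^ #T * (1 - p) ^ (K - #T) *
        (if Gd b K ε A J y T then (1 : ℝ) else 0)) ^ 2 = S at h0 h9
  generalize (b : ℝ) ^ K = x at *
  have he : 0 < Real.exp (-(c * p * K)) := Real.exp_pos _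
  generalize Real.exp (-(c * p * K)) = e at *
  have h12 : S ≤ 2 / ε ^ 2 * (C * e * E) := by
    rw [div_mul_eq_mul_div, le_div_iff₀ (by positivity)]
    nlinarith
  have h13 : 0 ≤ x * e * E := by positivity
  calc P ^ 2 ≤ Q ^ 2 := pow_le_pow_left₀ h11 h1 2
    _ ≤ 2 * x * S := h9
    _ ≤ (2 * x) * (2 / ε ^ 2 * (C * e * E)) := mul_le_mul_of_nonneg_left h12 (by positivity)
    _ = 4 * C / ε ^ 2 * (x * e * E) := by ring
    _ ≤ (4 * C / ε ^ 2) * (x * e * E) + x * e * E := by linarith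
    _ = _ := by ring

open Classical in
/-- the same set under the name of the text -/
noncomputable def read (b K : ℕ) (ε : ℝ) (A : Set ℕ) (J : ℕ → ℕ → ℕ) (z : ℕ) : Finset ℕ :=
  {n ∈ range (b ^ K) | ∃ a ∈ A, ∃ a' ∈ A, a + a' = n ∧
    (1 / b + ε) * K ≤ (#{i ∈ range K | J (n + z) i = digit b i a} : ℝ)}

lemma weights_sum (K : ℕ) (p : ℝ) :
    ∑ T ∈ (range K).powerset, p ^ #T * (1 - p) ^ (K - #T) = 1 := by
  have h := Finset.sum_pow_mul_eq_add_pow p (1 - p) (range K)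
  rw [card_range] at h
  rw [h, add_sub_cancel, one_pow]

/-- **Noisy digits**, with a power of the energy. -/
theorem nr : ∀ (b : ℕ) (ε : ℝ), 2 ≤ b → 0 < ε → ∃ c C : ℝ, 0 < c ∧ 0 < C ∧
    ∀ (A : Set ℕ) (K : ℕ) (p : ℝ), 0 < p → p ≤ 1 / 2 → ∀ J : ℕ → ℕ → ℕ,
    ∑ T ∈ (range K).powerset, p ^ #T * (1 - p) ^ (K - #T) *
      (#(read b K ε A J (∑ i ∈ T, b ^ i)) : ℝ) ≤
    C * (b : ℝ) ^ K * (Real.exp (-(c * p * K)) *
      (∑ n ∈ range (2 * b ^ K), (rep A n : ℝ) ^ 2) / (b : ℝ) ^ K) ^ c := by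
  intro b ε hb hε
  obtain ⟨c, C, hc, hC, hmain⟩ := noisy (Pool.Agent.Helper57.CH.stCH3
    Pool.Agent.Helper63.CH.stMu Pool.Agent.Helper8.CH.stG4 Pool.Agent.Helper66.CH.stD3
    Pool.Agent.Helper43.CH.stM3) b hb ε hε
  have hb0 : (0 : ℝ) < b := by
    have : 0 < b := by omega
    exact_mod_cast this
  refine ⟨min c (1 / 2), 1 + Real.sqrt C, lt_min hc (by norm_num), by positivity,
    fun A K p hp hp2 J => ?_⟩
  have h1 := hmain A K p hp hp2 J
  have h2 : ∑ T ∈ (range K).powerset, p ^ #T * (1 - p) ^ (K - #T) *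
      (#(guessedAt b K ε A J (∑ i ∈ T, b ^ i)) : ℝ) ≤ (b : ℝ) ^ K := by
    calc _ ≤ ∑ T ∈ (range K).powerset, p ^ #T * (1 - p) ^ (K - #T) * (b : ℝ) ^ K := by
          exact sum_le_sum fun T _ => mul_le_mul_of_nonneg_left
            (card_guessedAt_le_pow b K ε A J _) (weights_nonneg hp hp2 T)
      _ = _ := by rw [← sum_mul, weights_sum, one_mul]
  have h3 : 0 ≤ ∑ T ∈ (range K).powerset, p ^ #T * (1 - p) ^ (K - #T) *
      (#(guessedAt b K ε A J (∑ i ∈ T, b ^ i)) : ℝ) :=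
    sum_nonneg fun T _ => mul_nonneg (weights_nonneg hp hp2 T) (Nat.cast_nonneg _)
  have hE0 : 0 ≤ ∑ n ∈ range (2 * b ^ K), (rep A n : ℝ) ^ 2 :=
    sum_nonneg fun _ _ => sq_nonneg _
  have hx0 : (0 : ℝ) < (b : ℝ) ^ K := by positivity
  have he : Real.exp (-(c * p * K)) ≤ Real.exp (-(min c (1 / 2) * p * K)) := by
    refine Real.exp_le_exp.2 (neg_le_neg ?_)
    have hK0 : (0 : ℝ) ≤ K := Nat.cast_nonneg _
    exact mul_le_mul_of_nonneg_right (mul_le_mul_of_nonneg_right (min_le_left _ _) hp.le) hK0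
  have he0 : 0 < Real.exp (-(c * p * K)) := Real.exp_pos _
  show ∑ T ∈ (range K).powerset, p ^ #T * (1 - p) ^ (K - #T) *
      (#(guessedAt b K ε A J (∑ i ∈ T, b ^ i)) : ℝ) ≤ _
  generalize ∑ n ∈ range (2 * b ^ K), (rep A n : ℝ) ^ 2 = E at h1 hE0 ⊢
  generalize ∑ T ∈ (range K).powerset, p ^ #T * (1 - p) ^ (K - #T) *
      (#(guessedAt b K ε A J (∑ i ∈ T, b ^ i)) : ℝ) = P at h1 h2 h3 ⊢
  generalize (b : ℝ) ^ K = x at *
  generalize Real.exp (-(c * p * K)) = e at *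
  generalize Real.exp (-(min c (1 / 2) * p * K)) = e' at *
  have hm0 : 0 < min c (1 / 2) := lt_min hc (by norm_num)
  have hm2 : min c (1 / 2) ≤ 1 / 2 := min_le_right _ _
  generalize min c (1 / 2) = m at *
  have hR0 : 0 ≤ e' * E / x := by
    have : 0 < e' := lt_of_lt_of_le he0 he
    positivity
  have hs := Real.sqrt_nonneg C
  rcases le_total (e' * E / x) 1 with hR | hR
  · have h4 : P ≤ Real.sqrt C * x * (e' * E / x) ^ (1 / 2 : ℝ) := by
      refine (pow_le_pow_iff_left₀ h3 (by positivity) two_ne_zero).1 ?_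
      rw [mul_pow, mul_pow, Real.sq_sqrt hC.le, ← Real.rpow_natCast ((e' * E / x) ^ (1 / 2 : ℝ)) 2,
        ← Real.rpow_mul hR0]
      norm_num
      calc P ^ 2 ≤ C * x * e * E := h1
        _ ≤ C * x * e' * E := by gcongr
        _ = _ := by field_simp
    have h5 : (e' * E / x) ^ (1 / 2 : ℝ) ≤ (e' * E / x) ^ m :=
      Real.rpow_le_rpow_of_exponent_ge' hR0 hR hm0.le hm2
    have h6 : 0 ≤ (e' * E / x) ^ m := Real.rpow_nonneg hR0 _
    calc P ≤ Real.sqrt C * x * (e' * E / x) ^ (1 / 2 : ℝ) := h4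
      _ ≤ Real.sqrt C * x * (e' * E / x) ^ m := mul_le_mul_of_nonneg_left h5 (by positivity)
      _ ≤ (1 + Real.sqrt C) * x * (e' * E / x) ^ m := by
        have : 0 ≤ x * (e' * E / x) ^ m := by positivity
        nlinarith
  · have h5 : 1 ≤ (e' * E / x) ^ m := Real.one_le_rpow hR hm0.le
    calc P ≤ x := h2
      _ ≤ (1 + Real.sqrt C) * x * 1 := by nlinarith
      _ ≤ _ := mul_le_mul_of_nonneg_left h5 (by positivity)

end Pool.Agent.Helper45.CH
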