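import Pool.Agent.Helper45.CH.Key

set_option autoImplicit false

/-! No rule guesses the digits of the summands of `n` from a noisy copy of `n`. -/

namespace Pool.Agent.Helper45.CH

open Finset
open Pool.Agent.Helper57.CH (states prob zz Joint bad3 StCH3)
open Pool.Agent.Helper57.U2 (rep upTo digit)

/-- `r` is a guessed representation of `n` at `y` -/
def Gu (b K : ℕ) (ε : ℝ) (A : Set ℕ) (J : ℕ → ℕ → ℕ) (n y : ℕ) (r : ℕ × ℕ) : Prop :=
  n < b ^ K ∧ r.1 ∈ A ∧ r.2 ∈ A ∧ r.1 + r.2 = n ∧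
    (1 / b + ε) * K ≤ (#{i ∈ range K | J y i = digit b i r.1} : ℝ)

open Classical in
/-- a guessed representation of `n` at `y`, if there is one -/
noncomputable def fz (b K : ℕ) (ε : ℝ) (A : Set ℕ) (J : ℕ → ℕ → ℕ) (n y : ℕ) : ℕ × ℕ :=
  if h : ∃ r, Gu b K ε A J n y r then h.choose else (0, 0)

lemma fz_spec {b K : ℕ} {ε : ℝ} {A : Set ℕ} {J : ℕ → ℕ → ℕ} {n y : ℕ}
    (h : ∃ r, Gu b K ε A J n y r) : Gu b K ε A J n y (fz b K ε A J n y) := by
  unfold fz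
  rw [dif_pos h]
  exact h.choose_spec

/-- the noise -/
def zt (b : ℕ) (T : Finset ℕ) : ℕ := ∑ i ∈ T, b ^ i

/-- `y - z` has a guessed representation at `y` -/
def Gd (b K : ℕ) (ε : ℝ) (A : Set ℕ) (J : ℕ → ℕ → ℕ) (y : ℕ) (T : Finset ℕ) : Prop :=
  zt b T ≤ y ∧ ∃ r, Gu b K ε A J (y - zt b T) y r

/-- the two guessed representations have many equal digits -/
def Zd (b K : ℕ) (ε : ℝ) (A : Set ℕ) (J : ℕ → ℕ → ℕ) (y : ℕ) (T T' : Finset ℕ) : Prop :=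
  (1 / b + ε ^ 2 / 2) * K ≤ (#{i ∈ range K | digit b i (fz b K ε A J (y - zt b T) y).1 =
        digit b i (fz b K ε A J (y - zt b T') y).1} : ℝ)

open Classical in
lemma pairs_le {b K : ℕ} (hb : 2 ≤ b) (hK : 0 < K) {ε : ℝ} (hε : 0 < ε) (A : Set ℕ)
    (J : ℕ → ℕ → ℕ) (T T' : Finset ℕ) :
    ∑ y ∈ range (2 * b ^ K), (if Gd b K ε A J y T then (1 : ℝ) else 0) *
      (if Gd b K ε A J y T' then 1 else 0) * (if Zd b K ε A J y T T' then 1 else 0) ≤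
      (bad3 b 1 K (ε ^ 2 / (4 * b ^ 2)) (upTo A (b ^ K)) ((zt b T : ℤ) - zt b T') : ℝ) := by
  rw [sum_congr rfl fun y _ => ite3 (Gd b K ε A J y T) (Gd b K ε A J y T') (Zd b K ε A J y T T'),
    sum_boole]
  unfold bad3
  refine Nat.cast_le.2 (card_le_card_of_injOn
    (fun y => (fz b K ε A J (y - zt b T) y, fz b K ε A J (y - zt b T') y)) (fun y hy => ?_) ?_)
  · obtain ⟨_, ⟨hy1, hy2⟩, ⟨hy3, hy4⟩, hy5⟩ := mem_filter.1 (mem_coe.1 hy)
    have h5 := fz_spec hy2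
    have h6 := fz_spec hy4
    unfold Zd at hy5
    unfold Gu at h5 h6
    obtain ⟨p1, p2, p3, p4, _⟩ := h5
    obtain ⟨q1, q2, q3, q4, _⟩ := h6
    rw [mem_coe, mem_filter, mem_product, mem_product, mem_product, mem_upTo, mem_upTo,
      mem_upTo, mem_upTo]
    beta_reduce
    generalize fz b K ε A J (y - zt b T) y = r at *
    generalize fz b K ε A J (y - zt b T') y = r' at *
    generalize zt b T = z at *
    generalize zt b T' = z' at *
    refine ⟨⟨⟨⟨?_, p2⟩, ?_, p3⟩, ⟨?_, q2⟩, ?_, q3⟩, ?_, not_joint hb hK hε hy5⟩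
    · show r.1 < b ^ K
      omega
    · show r.2 < b ^ K
      omega
    · show r'.1 < b ^ K
      omega
    · show r'.2 < b ^ K
      omega
    · show (r.1 : ℤ) + r.2 + ((z : ℤ) - z') = r'.1 + r'.2
      omega
  · intro y hy y' hy' h
    obtain ⟨_, ⟨hy1, hy2⟩, _⟩ := mem_filter.1 (mem_coe.1 hy)
    obtain ⟨_, ⟨hy1', hy2'⟩, _⟩ := mem_filter.1 (mem_coe.1 hy')
    have h5 := fz_spec hy2
    have h6 := fz_spec hy2'
    have h7 : fz b K ε A J (y - zt b T) y = fz b K ε A J (y' - zt b T) y' :=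
      congrArg Prod.fst h
    unfold Gu at h5 h6
    obtain ⟨_, _, _, p4, _⟩ := h5
    obtain ⟨_, _, _, q4, _⟩ := h6
    rw [h7] at p4
    omega

open Classical in
lemma guessed_le {b K : ℕ} (hb : 2 ≤ b) {ε : ℝ} (A : Set ℕ) (J : ℕ → ℕ → ℕ) (T : Finset ℕ)
    (hT : T ⊆ range K) : (#(guessedAt b K ε A J (∑ i ∈ T, b ^ i)) : ℝ) ≤
      ∑ y ∈ range (2 * b ^ K), if Gd b K ε A J y T then 1 else 0 := by
  have hlt := zt_lt hb K T hT
  rw [sum_boole]
  refine Nat.cast_le.2 (card_le_card_of_injOn (fun n => n + ∑ i ∈ T, b ^ i) (fun n hn => ?_)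
    fun n _ n' _ h => by simpa using h)
  obtain ⟨hn1, a, ha, a', ha', haa, hn2⟩ := mem_filter.1 (mem_coe.1 hn)
  have hn1' := mem_range.1 hn1
  have e1 : n + ∑ i ∈ T, b ^ i - zt b T = n := Nat.add_sub_cancel _ _
  rw [mem_coe, mem_filter, mem_range]
  refine ⟨?_, Nat.le_add_left _ _, (a, a'), ?_⟩
  · show n + ∑ i ∈ T, b ^ i < 2 * b ^ K
    omega
  · show Gu b K ε A J (n + ∑ i ∈ T, b ^ i - zt b T) (n + ∑ i ∈ T, b ^ i) (a, a')
    rw [e1]
    exact ⟨hn1', ha, ha', haa, hn2⟩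

open Classical in
lemma key_y {b K : ℕ} (hb : 2 ≤ b) (hK : 0 < K) {ε : ℝ} (hε : 0 < ε) (A : Set ℕ)
    (J : ℕ → ℕ → ℕ) (W : Finset (Finset ℕ)) (wt : Finset ℕ → ℝ) (hwt0 : ∀ T, 0 ≤ wt T) (y : ℕ) :
    ε ^ 2 / 2 * (∑ T ∈ W, wt T * if Gd b K ε A J y T then 1 else 0) ^ 2 ≤
      ∑ T ∈ W, ∑ T' ∈ W, wt T * wt T' * ((if Gd b K ε A J y T then (1 : ℝ) else 0) *
      (if Gd b K ε A J y T' then 1 else 0) * (if Zd b K ε A J y T T' then 1 else 0)) := by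
  have h3 := key W (fun T => wt T * if Gd b K ε A J y T then 1 else 0)
    (fun T _ => mul_nonneg (hwt0 T) (by split_ifs <;> norm_num))
    (fun T i => digit b i (fz b K ε A J (y - zt b T) y).1) b K hb hK
    (fun T _ i => Nat.mod_lt _ (by omega)) (J y) ε hε (fun T _ hne => by
      have h4 : Gd b K ε A J y T := by
        by_contra hno
        apply hne
        rw [if_neg hno, mul_zero]
      have h5 := fz_spec h4.2
      unfold Gu at h5
      exact h5.2.2.2.2)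
  refine h3.trans (le_of_eq ?_)
  refine sum_congr rfl fun T _ => sum_congr rfl fun T' _ => ?_
  unfold Zd
  ring

lemma weights_nonneg {K : ℕ} {p : ℝ} (hp : 0 < p) (hp2 : p ≤ 1 / 2) (T : Finset ℕ) :
    0 ≤ p ^ #T * (1 - p) ^ (K - #T) := by
  have : 0 ≤ 1 - p := by linarith
  positivity

open Classical in
lemma sum_sq_le (hCH : StCH3) {b : ℕ} (hb : 2 ≤ b) {ε : ℝ} (hε : 0 < ε) :
    ∃ c C : ℝ, 0 < c ∧ 0 < C ∧ ∀ (A : Set ℕ) (K : ℕ) (p : ℝ), 0 < K → 0 < p → p ≤ 1 / 2 →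
      ∀ J : ℕ → ℕ → ℕ,
      ∑ y ∈ range (2 * b ^ K), ε ^ 2 / 2 * (∑ T ∈ (range K).powerset,
        p ^ #T * (1 - p) ^ (K - #T) * if Gd b K ε A J y T then 1 else 0) ^ 2 ≤
      C * Real.exp (-(c * p * K)) * ∑ n ∈ range (2 * b ^ K), (rep A n : ℝ) ^ 2 := by
  have hb0 : (0 : ℝ) < b := by
    have : 0 < b := by omega
    exact_mod_cast this
  obtain ⟨c, C, hc, hC, hmain⟩ := hCH b 1 hb le_rfl (ε ^ 2 / (4 * b ^ 2)) (by positivity)
  refine ⟨c, C, hc, hC, fun A K p hK hp hp2 J => ?_⟩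
  have hs1 : 0 < 2 * p * (1 - p) := by
    have : 0 < 1 - p := by linarith
    positivity
  have hs2 : 2 * p * (1 - p) ≤ 1 / 2 := by nlinarith [sq_nonneg (2 * p - 1)]
  have hs3 : p ≤ 2 * p * (1 - p) := by nlinarith
  obtain ⟨bd, hbd⟩ : ∃ bd : ℤ → ℝ, bd = fun u =>
      (bad3 b 1 K (ε ^ 2 / (4 * b ^ 2)) (upTo A (b ^ K)) u : ℝ) := ⟨_, rfl⟩
  have hE0 : 0 ≤ ∑ n ∈ range (2 * b ^ K), (rep A n : ℝ) ^ 2 :=
    sum_nonneg fun _ _ => sq_nonneg _
  have h6 : N2 b K p bd ≤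
      C * Real.exp (-(c * p * K)) * ∑ n ∈ range (2 * b ^ K), (rep A n : ℝ) ^ 2 := by
    rw [law b p K bd, hbd]
    refine (hmain A K _ hs1 hs2).trans ?_
    refine mul_le_mul_of_nonneg_right (mul_le_mul_of_nonneg_left (Real.exp_le_exp.2 ?_) hC.le) hE0
    have hK0 : (0 : ℝ) ≤ K := Nat.cast_nonneg _
    have : c * p * K ≤ c * (2 * p * (1 - p)) * K :=
      mul_le_mul_of_nonneg_right (mul_le_mul_of_nonneg_left hs3 hc.le) hK0
    linarith
  refine le_trans (sum_le_sum fun y _ =>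
    key_y hb hK hε A J (range K).powerset _ (weights_nonneg hp hp2) y) (le_trans ?_ h6)
  unfold N2 N1
  rw [sum_comm]
  refine sum_le_sum fun T _ => ?_
  rw [sum_comm, mul_sum]
  refine sum_le_sum fun T' _ => ?_
  rw [← mul_sum, mul_assoc]
  refine mul_le_mul_of_nonneg_left ?_ (weights_nonneg hp hp2 T)
  refine mul_le_mul_of_nonneg_left ?_ (weights_nonneg hp hp2 T')
  refine (pairs_le hb hK hε A J T T').trans (le_of_eq ?_)
  rw [hbd]
  unfold zt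
  push_cast
  rfl

end Pool.Agent.Helper45.CH
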