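import Pool.Agent.Helper45.CH.Noisy
import Pool.Agent.Helper57.CH.Nr2
import Pool.Agent.Helper57.CH.Push

set_option autoImplicit false

/-! Noisy reading: the one-sided and the two-sided noise, and the form with the square. -/

namespace Pool.Agent.Helper45.CH

open Finset
open Pool.Agent.Helper57.CH (states prob zz read1 read2 StNr StNr2 dig sum_wt read2_eq stPush)
open Pool.Agent.Helper57.U2 (rep upTo digit)

theorem stNr : StNr := nr

theorem stNr2 : StNr2 := Pool.Agent.Helper57.CH.stNr2 stNr stPush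

/-- The two-sided noise, with the square. -/
theorem nr2sq (b : ℕ) (ε : ℝ) (hb : 2 ≤ b) (hε : 0 < ε) : ∃ c C : ℝ, 0 < c ∧ 0 < C ∧
    ∀ (A : Set ℕ) (K : ℕ) (s : ℝ), 0 < s → s ≤ 1 / 2 → ∀ J : ℤ → ℕ → ℕ,
      (∑ ξ ∈ states K, prob s ξ * (#(read2 b K ε A J (zz b ξ)) : ℝ)) ^ 2 ≤
      C * (b : ℝ) ^ K * Real.exp (-(c * s * K)) *
        ∑ n ∈ range (2 * b ^ K), (rep A n : ℝ) ^ 2 := by
  obtain ⟨c, C, hc, hC, h⟩ := noisy (Pool.Agent.Helper57.CH.stCH3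
    Pool.Agent.Helper63.CH.stMu Pool.Agent.Helper8.CH.stG4 Pool.Agent.Helper66.CH.stD3
    Pool.Agent.Helper43.CH.stM3) b hb ε hε
  refine ⟨c / 2, C, by positivity, hC, fun A K s hs hs2 J => ?_⟩
  obtain ⟨p, hp⟩ : ∃ p : ℝ, p = (1 - √(1 - 2 * s)) / 2 := ⟨_, rfl⟩
  have hsq : √(1 - 2 * s) ^ 2 = 1 - 2 * s := Real.sq_sqrt (by linarith)
  have hsq0 : 0 ≤ √(1 - 2 * s) := Real.sqrt_nonneg _
  have hps : 2 * p * (1 - p) = s := by rw [hp]; nlinarith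
  have hp2 : p ≤ 1 / 2 := by rw [hp]; linarith
  have hp0 : 0 < p := by
    by_contra hneg
    have : 2 * p * (1 - p) ≤ 0 := by
      have h1 : 0 ≤ 1 - p := by linarith
      have h2 : p ≤ 0 := not_lt.1 hneg
      nlinarith
    linarith
  have hps2 : s / 2 ≤ p := by nlinarith
  have hb0 : (0 : ℝ) < b := by
    have : 0 < b := by omega
    exact_mod_cast this
  have hE0 : 0 ≤ ∑ n ∈ range (2 * b ^ K), (rep A n : ℝ) ^ 2 :=
    sum_nonneg fun _ _ => by positivity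
  have key := stPush b K p (fun z => (#(read2 b K ε A J z) : ℝ))
  rw [hps] at key
  rw [← key]
  have h1 : ∀ T ∈ (range K).powerset, ∑ U ∈ (range K).powerset, p ^ #T * (1 - p) ^ (K - #T) *
      (p ^ #U * (1 - p) ^ (K - #U)) *
        (#(read2 b K ε A J (((∑ i ∈ U, b ^ i : ℕ) : ℤ) - ((∑ i ∈ T, b ^ i : ℕ) : ℤ))) : ℝ) =
      p ^ #T * (1 - p) ^ (K - #T) * ∑ U ∈ (range K).powerset, p ^ #U * (1 - p) ^ (K - #U) *
        (#(read1 b K ε A (fun y i => J ((y : ℤ) - ((∑ i ∈ T, b ^ i : ℕ) : ℤ)) i)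
          (∑ i ∈ U, b ^ i)) : ℝ) := by
    intro T _
    rw [mul_sum]
    refine sum_congr rfl fun U _ => ?_
    rw [read2_eq]
    ring
  rw [sum_congr rfl h1]
  have h2 := sum_mul_sq_le_sq_mul_sq (range K).powerset
    (fun T => √(p ^ #T * (1 - p) ^ (K - #T)))
    (fun T => √(p ^ #T * (1 - p) ^ (K - #T)) * ∑ U ∈ (range K).powerset,
      p ^ #U * (1 - p) ^ (K - #U) *
        (#(read1 b K ε A (fun y i => J ((y : ℤ) - ((∑ i ∈ T, b ^ i : ℕ) : ℤ)) i)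
          (∑ i ∈ U, b ^ i)) : ℝ))
  have h3 : ∀ T : Finset ℕ, √(p ^ #T * (1 - p) ^ (K - #T)) ^ 2 = p ^ #T * (1 - p) ^ (K - #T) :=
    fun T => Real.sq_sqrt (weights_nonneg hp0 hp2 T)
  have h4 : ∑ T ∈ (range K).powerset, √(p ^ #T * (1 - p) ^ (K - #T)) ^ 2 = 1 := by
    rw [sum_congr rfl fun T _ => h3 T, sum_wt]
  rw [h4, one_mul] at h2
  have h5 : ∀ T ∈ (range K).powerset, √(p ^ #T * (1 - p) ^ (K - #T)) *
      (√(p ^ #T * (1 - p) ^ (K - #T)) * ∑ U ∈ (range K).powerset,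
      p ^ #U * (1 - p) ^ (K - #U) *
        (#(read1 b K ε A (fun y i => J ((y : ℤ) - ((∑ i ∈ T, b ^ i : ℕ) : ℤ)) i)
          (∑ i ∈ U, b ^ i)) : ℝ)) = p ^ #T * (1 - p) ^ (K - #T) * ∑ U ∈ (range K).powerset,
      p ^ #U * (1 - p) ^ (K - #U) *
        (#(read1 b K ε A (fun y i => J ((y : ℤ) - ((∑ i ∈ T, b ^ i : ℕ) : ℤ)) i)
          (∑ i ∈ U, b ^ i)) : ℝ) := by
    intro T _
    rw [← mul_assoc, Real.mul_self_sqrt (weights_nonneg hp0 hp2 T)]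
  rw [sum_congr rfl h5] at h2
  refine h2.trans ?_
  have h6 : ∀ T ∈ (range K).powerset, (√(p ^ #T * (1 - p) ^ (K - #T)) *
      ∑ U ∈ (range K).powerset, p ^ #U * (1 - p) ^ (K - #U) *
        (#(read1 b K ε A (fun y i => J ((y : ℤ) - ((∑ i ∈ T, b ^ i : ℕ) : ℤ)) i)
          (∑ i ∈ U, b ^ i)) : ℝ)) ^ 2 ≤ p ^ #T * (1 - p) ^ (K - #T) *
      (C * (b : ℝ) ^ K * Real.exp (-(c / 2 * s * K)) *
        ∑ n ∈ range (2 * b ^ K), (rep A n : ℝ) ^ 2) := by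
    intro T _
    rw [mul_pow, h3]
    refine mul_le_mul_of_nonneg_left ?_ (weights_nonneg hp0 hp2 T)
    refine (h A K p hp0 hp2 fun y i => J ((y : ℤ) - ((∑ i ∈ T, b ^ i : ℕ) : ℤ)) i).trans ?_
    refine mul_le_mul_of_nonneg_right (mul_le_mul_of_nonneg_left (Real.exp_le_exp.2 ?_)
      (by positivity)) hE0
    have hK0 : (0 : ℝ) ≤ K := Nat.cast_nonneg _
    have h7 : c / 2 * s * K = c * (s / 2) * K := by ring
    rw [h7]
    exact neg_le_neg (mul_le_mul_of_nonneg_right (mul_le_mul_of_nonneg_left hps2 hc.le) hK0)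
  refine (sum_le_sum h6).trans (le_of_eq ?_)
  rw [← sum_mul, sum_wt, one_mul]

end Pool.Agent.Helper45.CH
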