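import Pool.Agent.Helper45.CH.Noisy
import Pool.Agent.Helper57.CH.Both2

set_option autoImplicit false

namespace Pool.Agent.Helper45.CH

/-- the one-sided noise, square form, under the name of the text -/
theorem stNrs : Pool.Agent.Helper57.CH.StNrs := fun b ε hb hε =>
  noisy (Pool.Agent.Helper57.CH.stCH3
    Pool.Agent.Helper63.CH.stMu Pool.Agent.Helper8.CH.stG4 Pool.Agent.Helper66.CH.stD3
    Pool.Agent.Helper43.CH.stM3) b hb ε hε

end Pool.Agent.Helper45.CH
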